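import Pool.Agent.W353.SP.Main

/-!
# The defects of Tate's conjecture over all number fields: a square-summable function on Artin
representations

`X` is a smooth projective variety over a number field `K` and `V` the space of the classes of the
algebraic cycles of codimension `m` defined over the algebraic closure; for `m = 1`, the question, it is
`NS(X) ⊗ ℚ`.  For every number field `F ⊇ K`, `L(H^{2m}(X_F), s)` is an Euler product over the primes of
`F`, and the rank of the group of the classes of the cycles defined over `F` is `dim V^{Gal(K̄/F)}`.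
Tate's conjecture for `X_F` says that `log |L(m + 1 + ε)| / log(1/ε)` tends to this rank (if there is a
continuation, this says that there is a pole of this order).
The definitions are in `Pool.Agent.W353.SP.Defs`, `Pool.Agent.W353.AT.TDefs`,
`Pool.Agent.W353.AT.Defs`, `Pool.Agent.W353.TD.Defs`, `Pool.Agent.W353.EH.Defs` and
`Pool.Agent.W353.EF.Defs`.
-/

set_option autoImplicit false

namespace Pool.Agent.Results.MP_1f4fc7_nt.ArtinSpectrum

open NumberField Pool.Agent.W353.SP

/-- **The defects over all number fields.**  Let `X` be a projective variety of dimension `d` over a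
number field `K`, `0 ≤ m ≤ d`, `N` the `2m`-th Betti number, `V` a part of `H^{2m}(X)(m)`, for instance
`NS(X) ⊗ ℚ` for `m = 1`, and `s = N - dim V`.  Every sequence `ε_j → 0+` has a subsequence along which
`log |L(m + 1 + ε)| / log(1/ε)` converges for `L(H^{2m}(X_F), s)`, for all number fields `F ⊇ K`, and for
`L(H^{2m}(X) ⊗ χ, s)`, for all Artin representations `χ` of `K` (no continuation is assumed).  Let
`dim V^{Gal(K̄/F)} - δ_F` and `dim (V ⊗ χ)^{Gal(K̄/K)} - y_χ` be the limits.  Then
* `∑ y_χ² ≤ s²`, the sum over the irreducible `χ`;
* `δ_F = ∑ y_χ dim χ^{Gal(K̄/F)}` for all number fields `F ⊇ K`, of any degree;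
* for all `c` and `η > 0` there is a finite Galois extension `M` of `K` with `|δ_F - δ_{F ∩ M}| < η` for
  all number fields `F ⊇ K` of degree at most `c`. -/
theorem result (K : Type) [Field K] [NumberField K] (n d m N : ℕ)
    (X : Set (MvPolynomial (Fin n) (𝓞 K))) (V : Type) [AddCommGroup V] [Module ℚ V]
    [FiniteDimensional ℚ V] (ρ : Representation ℚ Gal(AlgebraicClosure K/K) V) (hm : m ≤ d)
    (hV : Pool.Agent.W353.TD.IsPart X d m N ρ) : TateSpectrum X d m N ρ :=
  tateSpectrum hm hV

end Pool.Agent.Results.MP_1f4fc7_nt.ArtinSpectrum
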