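import Pool.Agent.W353.TP.Final
import Pool.Agent.W353.TP.Types

/-!
# The pole of `L₂` at `s = 2` over all number fields of bounded degree

`K` is a number field, `C₁, …, C_r` are hyperelliptic curves `y² = f_i(x)` over `K` with `f_i` of
odd degree `2 g_i + 1 ≥ 3`.  For a number field `F ⊇ K` and `d = (d₁, …, d_r)`, `d_i ∈ F^*`, the
variety `X_d = ∏ C_{i, d_i}` over `F` is the product of the quadratic twists `d_i y² = f_i(x)`.

On the algebraic side there is one finite Galois extension `M` of `K` over which all of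
`NS(∏ C_i)` is defined, and `M` controls the rank of `NS(X_d / F)` for every `F` and `d`: if no
`√(d_i d_j)`, `i < j`, lies in `F M`, the rank is `r`, and in general it is the rank of
`NS(X_e / F ∩ M)` for a twist `e` over `F ∩ M`.  The theorem is the analytic counterpart, for the
orders of the poles of `L₂`.
-/

set_option autoImplicit false

namespace Pool.Agent.Results.MP_1f4fc7_nt.BoundedDegreeExtensions

open NumberField IsDedekindDomain Filter Topology Polynomial
open scoped TensorProduct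

/-- Number of affine points of `d y² = f(x)` with coordinates in the extension of degree `m` of the
finite field `k`, that is, the field of the elements of the algebraic closure of `k` that are fixed
by the `m`-th power of the Frobenius of `k`. -/
noncomputable def affineCount (k : Type) [Field k] (f : k[X]) (d : k) (m : ℕ) : ℕ :=
  Nat.card {P : AlgebraicClosure k × AlgebraicClosure k //
    P.1 ^ (Nat.card k ^ m) = P.1 ∧ P.2 ^ (Nat.card k ^ m) = P.2 ∧
    algebraMap k (AlgebraicClosure k) d * P.2 ^ 2 = aeval P.1 f}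

/-- Trace of the `m`-th power of the Frobenius at `v` on `H¹` of the smooth projective curve
`d y² = f(x)`, `deg f` odd: it is `q^m + 1` minus the number of points over the field with `q^m`
elements, and there is one point at infinity. -/
noncomputable def traceH1 {F : Type} [Field F] [NumberField F] (v : HeightOneSpectrum (𝓞 F))
    (f : (𝓞 F)[X]) (d : 𝓞 F) (m : ℕ) : ℤ :=
  haveI : v.asIdeal.IsMaximal := v.isMaximal
  letI : Field (𝓞 F ⧸ v.asIdeal) := Ideal.Quotient.field v.asIdeal
  (Ideal.absNorm v.asIdeal : ℤ) ^ m + 1 -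
    (affineCount (𝓞 F ⧸ v.asIdeal) (f.map (Ideal.Quotient.mk v.asIdeal))
      (Ideal.Quotient.mk v.asIdeal d) m + 1)

/-- The pairs `i < j` of indices. -/
def pairs (r : ℕ) : Finset (Fin r × Fin r) := Finset.univ.filter fun p => p.1 < p.2

/-- Trace of the `m`-th power of the Frobenius at `v` on `H²` of the product of the curves
`d_i y² = f_i(x)`, by the Künneth formula. -/
noncomputable def traceH2 {F : Type} [Field F] [NumberField F] {r : ℕ}
    (v : HeightOneSpectrum (𝓞 F)) (f : Fin r → (𝓞 F)[X]) (d : Fin r → 𝓞 F) (m : ℕ) : ℤ :=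
  r * (Ideal.absNorm v.asIdeal : ℤ) ^ m +
    ∑ p ∈ pairs r, traceH1 v (f p.1) (d p.1) m * traceH1 v (f p.2) (d p.2) m

open Classical in
/-- The Euler product `L₂(s)` of the product of the curves `d_i y² = f_i(x)` over `F`.  At the
primes `v` outside the finite set `S` the factor is
`det(1 - Frob q^{-s} | H²)⁻¹ = exp(∑_{m ≥ 1} Tr(Frob^m | H²) q^{-ms} / m)`; at the primes of `S`,
which contains the primes of bad reduction, it is `B_v(q^{-s})⁻¹` for a polynomial `B_v`. -/
noncomputable def L₂ {F : Type} [Field F] [NumberField F] {r : ℕ} (f : Fin r → (𝓞 F)[X])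
    (d : Fin r → 𝓞 F) (S : Finset (HeightOneSpectrum (𝓞 F)))
    (B : HeightOneSpectrum (𝓞 F) → ℂ[X]) (s : ℂ) : ℂ :=
  ∏' v : HeightOneSpectrum (𝓞 F),
    if v ∈ S then ((B v).eval (((Ideal.absNorm v.asIdeal : ℕ) : ℂ) ^ (-s)))⁻¹
    else Complex.exp (∑' m : ℕ, (traceH2 v f d (m + 1) : ℂ) *
      ((Ideal.absNorm v.asIdeal : ℕ) : ℂ) ^ (-((m + 1 : ℂ) * s)) / (m + 1 : ℂ))

section
variable {K : Type} [Field K] [NumberField K] {r : ℕ}

/-- The polynomials `f_i`, read over the extension `F` of `K`. -/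
noncomputable def polyOver (F : Type) [Field F] [NumberField F] [Algebra K F]
    (f : Fin r → (𝓞 K)[X]) (i : Fin r) : (𝓞 F)[X] := (f i).map (algebraMap (𝓞 K) (𝓞 F))

/-- A variety `X_d = ∏ {d_i y² = f_i(x)}` over the number field `F`, `K ⊆ F`, together with a finite
set `S` of primes of `F` that contains the bad ones and Euler factors `B_v`, `v ∈ S`, without zeros
on the line `Re s = 2`. -/
structure Twist (f : Fin r → (𝓞 K)[X]) (F : IntermediateField K (AlgebraicClosure K))
    [NumberField F] where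
  d : Fin r → 𝓞 F
  d_ne_zero : ∀ i, d i ≠ 0
  S : Finset (HeightOneSpectrum (𝓞 F))
  good : ∀ v, v ∉ S → ∀ i, 2 * d i * (polyOver F f i).leadingCoeff ∉ v.asIdeal ∧
    ((polyOver F f i).map (Ideal.Quotient.mk v.asIdeal)).Separable
  B : HeightOneSpectrum (𝓞 F) → ℂ[X]
  B_ne_zero : ∀ v ∈ S, ∀ s : ℂ, s.re = 2 →
    (B v).eval (((Ideal.absNorm v.asIdeal : ℕ) : ℂ) ^ (-s)) ≠ 0

/-- `log |L₂(2 + iτ + ε, X_d / F)| / log(1/ε)`. -/
noncomputable def Twist.size {f : Fin r → (𝓞 K)[X]}
    {F : IntermediateField K (AlgebraicClosure K)} [NumberField F] (X : Twist f F)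
    (τ ε : ℝ) : ℝ :=
  Real.log ‖L₂ (polyOver F f) X.d X.S X.B (2 + τ * Complex.I + ε)‖ / Real.log (1 / ε)

/-- `L₂(s, X_d / F)` has a meromorphic continuation to a neighbourhood of `2 + iτ`, of order `m` at
`2 + iτ`. -/
def Twist.HasOrder {f : Fin r → (𝓞 K)[X]}
    {F : IntermediateField K (AlgebraicClosure K)} [NumberField F] (X : Twist f F)
    (τ : ℝ) (m : ℤ) : Prop :=
  ∃ Λ : ℂ → ℂ, MeromorphicAt Λ (2 + τ * Complex.I) ∧
    (∀ᶠ s in 𝓝 ((2 : ℂ) + τ * Complex.I), 2 < s.re → Λ s = L₂ (polyOver F f) X.d X.S X.B s) ∧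
    meromorphicOrderAt Λ (2 + τ * Complex.I) = m

/-- `d_i d_j` as an element of the algebraic closure of `K`. -/
noncomputable def dd {F : IntermediateField K (AlgebraicClosure K)} (d : Fin r → 𝓞 F)
    (i j : Fin r) : AlgebraicClosure K := (((d i * d j : 𝓞 F) : F) : AlgebraicClosure K)

/-- The twists `d` over `F` and `e` over `F₀` (`F₀ = F ∩ M` below): for all `i < j`, either
`d_i d_j e_i e_j` is a square in `F` and `√(e_i e_j) ∈ M`, or `√(d_i d_j) ∉ F M` and
`√(e_i e_j) ∉ M`. -/
def Related (M : IntermediateField K (AlgebraicClosure K))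
    {F F₀ : IntermediateField K (AlgebraicClosure K)} (d : Fin r → 𝓞 F) (e : Fin r → 𝓞 F₀) :
    Prop :=
  ∀ i j, i < j → ((∃ u ∈ F, u ^ 2 = dd d i j * dd e i j) ∧ ∃ t ∈ M, t ^ 2 = dd e i j) ∨
    ((∀ y ∈ F ⊔ M, y ^ 2 ≠ dd d i j) ∧ ∀ y ∈ M, y ^ 2 ≠ dd e i j)

/-- `M` and the finite set `Θ` of heights govern the orders on the line `Re s = 2` of all `X_d / F`
with `(F, d)` in the class `P`.

1. If no `√(d_i d_j)`, `i < j`, lies in `F M`, or if `τ ∉ Θ`, then there are arbitrarily small
`ε > 0` with `|log |L₂(2 + iτ + ε, X_d / F)| / log(1/ε) - r [τ = 0]| < 1/k`, and any meromorphic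
continuation has order `-r [τ = 0]` at `2 + iτ`.

2. If `e` over `F₀ = F ∩ M` is related to `d`, then there are arbitrarily small `ε > 0` for which
the values of `log |L₂(2 + iτ + ε)| / log(1/ε)` for `X_d / F` and `X_e / F₀` differ by less than
`1/k`, and any continuations for `X_d / F` and `X_e / F₀` have the same order at `2 + iτ`.

3. There is a list of at most `2^((r² + 1)([M : K] + 1))` twists `e` over subfields of `M` such that
every twist `d` over a number field `F ⊇ K` is related to a member of the list over `F ∩ M`. -/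
def Governs (f : Fin r → (𝓞 K)[X]) (k : ℕ) (M : IntermediateField K (AlgebraicClosure K))
    (Θ : Finset ℝ) (P : ∀ (F : IntermediateField K (AlgebraicClosure K)) [NumberField F],
      (Fin r → 𝓞 F) → Prop) : Prop :=
  (∀ (F : IntermediateField K (AlgebraicClosure K)) [NumberField F] (X : Twist f F),
    P F X.d → ∀ τ : ℝ, (τ ∉ Θ ∨ ∀ i j, i < j → ∀ y ∈ F ⊔ M, y ^ 2 ≠ dd X.d i j) →
      (∃ᶠ ε : ℝ in 𝓝[>] 0, |X.size τ ε - if τ = 0 then (r : ℝ) else 0| < 1 / k) ∧
      ∀ m : ℤ, X.HasOrder τ m → m = -if τ = 0 then (r : ℤ) else 0) ∧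
  (∀ (F F₀ : IntermediateField K (AlgebraicClosure K)) [NumberField F] [NumberField F₀],
    F₀ = F ⊓ M → ∀ (X : Twist f F) (Y : Twist f F₀), P F X.d → P F₀ Y.d →
      Related M X.d Y.d → ∀ τ : ℝ,
      (∃ᶠ ε : ℝ in 𝓝[>] 0, |X.size τ ε - Y.size τ ε| < 1 / k) ∧
      ∀ m m' : ℤ, X.HasOrder τ m → Y.HasOrder τ m' → m = m') ∧
  ∃ (l : ℕ) (G : Fin l → IntermediateField K (AlgebraicClosure K)) (e : ∀ a, Fin r → 𝓞 (G a)),
    l ≤ 2 ^ ((r ^ 2 + 1) * (Module.finrank K M + 1)) ∧
    (∀ a, G a ≤ M ∧ NumberField (G a) ∧ ∀ i, e a i ≠ 0) ∧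
    ∀ (F : IntermediateField K (AlgebraicClosure K)) [NumberField F] (d : Fin r → 𝓞 F),
      (∀ i, d i ≠ 0) → ∃ a, G a = F ⊓ M ∧ Related M d (e a)

end

/-- The intertwining number of the representation of `Gal(K̄/K)` induced from the quadratic character
of `F(√D)/F`: the number of the simple factors of `F ⊗_K F` in which `D ⊗ D` is a square. -/
noncomputable def intertwining (K F : Type) [Field K] [Field F] [Algebra K F] (D : F) : ℕ :=
  Nat.card {m : MaximalSpectrum (F ⊗[K] F) // IsSquare (Ideal.Quotient.mk m.asIdeal (D ⊗ₜ D))}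

section
variable {K : Type} [Field K] [NumberField K] {r : ℕ} {f : Fin r → (𝓞 K)[X]}

open Pool.Agent.W353.TP in
/-- passage to the helper library -/
noncomputable def toDat {F : IntermediateField K (AlgebraicClosure K)} [hF : NumberField F]
    (X : Twist f F) (τ : ℝ) : Dat f τ where
  F := F
  nf := hF
  d := X.d
  hd := X.d_ne_zero
  S := X.S
  B := X.B
  adm := by
    refine ⟨fun v hv i => ?_, fun v hv => X.B_ne_zero v hv _ (by simp)⟩
    have h := (X.good v hv i).1
    refine ⟨fun h2 => h ?_, fun h2 => h ?_, fun h2 => h ?_⟩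
    · rw [mul_assoc]
      exact v.asIdeal.mul_mem_right _ h2
    · rw [mul_right_comm]
      exact v.asIdeal.mul_mem_left _ h2
    · exact v.asIdeal.mul_mem_left _ h2

end

open Pool.Agent.W353.TP in
/-- **One finite extension governs the pole orders over all number fields of bounded degree.**
Let `N = ∑_{i < j} 2 g_i · 2 g_j`, `n, k ≥ 1`.  Let `P` be a class of pairs `(F, d)`, `F` a number
field containing `K`, `d` a twist over `F`, such that for every pair `[F : K] ≤ n` or, for all
`i < j`, the representation of `Gal(K̄/K)` induced from the quadratic character of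
`F(√(d_i d_j))/F` has intertwining number at most `n`; for instance all `(F, d)` with
`[F : K] ≤ n`.  Then there are a finite Galois extension `M` of `K` and a set `Θ` of at most
`2 n (k N)²` real numbers that govern the orders for all pairs in `P`.  If `[F : K] ≤ m` for all
pairs in `P`, then the degree of `M` is at most `((4^r m)!)^(2 n (k N)²)`. -/
theorem result (K : Type) [Field K] [NumberField K] (r : ℕ) (f : Fin r → (𝓞 K)[X])
    (hodd : ∀ i, Odd (f i).natDegree) (h3 : ∀ i, 3 ≤ (f i).natDegree) (n k : ℕ) (hk : 1 ≤ k)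
    (N : ℕ) (hN : N = ∑ p ∈ pairs r, ((f p.1).natDegree - 1) * ((f p.2).natDegree - 1))
    (P : ∀ (F : IntermediateField K (AlgebraicClosure K)) [NumberField F],
      (Fin r → 𝓞 F) → Prop)
    (hP : ∀ (F : IntermediateField K (AlgebraicClosure K)) [NumberField F] (d : Fin r → 𝓞 F),
      P F d → Module.finrank K F ≤ n ∨
        ∀ i j, i < j → intertwining K F ((d i * d j : 𝓞 F) : F) ≤ n) (m : ℕ) :
    ∃ (M : IntermediateField K (AlgebraicClosure K)) (Θ : Finset ℝ),
      FiniteDimensional K M ∧ IsGalois K M ∧ Θ.card ≤ 2 * n * (k * N) ^ 2 ∧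
      ((∀ (F : IntermediateField K (AlgebraicClosure K)) [NumberField F] (d : Fin r → 𝓞 F),
        P F d → Module.finrank K F ≤ m) →
          Module.finrank K M ≤ (4 ^ r * m).factorial ^ (2 * n * (k * N) ^ 2)) ∧
      Governs f k M Θ P := by
  classical
  have hNb : (N : ℝ) = ∑ p ∈ pairs r, Pool.Agent.H126T.bb f p := by
    rw [hN]
    push_cast
    refine Finset.sum_congr rfl fun p _ => ?_
    unfold Pool.Agent.H126T.bb
    rw [Nat.cast_sub (by have := h3 p.1; omega), Nat.cast_sub (by have := h3 p.2; omega)]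
    push_cast
    ring
  obtain ⟨U, hU⟩ : ∃ U : Ultrafilter ℝ, (U : Filter ℝ) ≤ 𝓝[>] 0 :=
    ⟨Ultrafilter.of _, Ultrafilter.of_le _⟩
  have hkR : (0 : ℝ) < k := by exact_mod_cast hk
  have hex : ∀ τ : ℝ, ex r τ = if τ = 0 then (r : ℝ) else 0 := by
    intro τ
    unfold ex
    by_cases h : τ = 0
    · rw [if_pos h]
    · rw [if_neg h]
  have hdiv : ∀ {x : ℝ}, (k : ℝ) * |x| < 1 → |x| < 1 / k := by
    intro x hx
    rw [lt_div_iff₀ hkR, mul_comm]
    exact hx
  have hmem : ∀ {i j : Fin r}, i < j → (i, j) ∈ Pool.Agent.H126T.pairs r := by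
    intro i j hij
    exact Finset.mem_filter.2 ⟨Finset.mem_univ _, hij⟩
  have hlt : ∀ {p : Fin r × Fin r}, p ∈ Pool.Agent.H126T.pairs r → p.1 < p.2 := fun h =>
    (Finset.mem_filter.1 h).2
  have hord : ∀ (F : IntermediateField K (AlgebraicClosure K)) [NumberField F] (X : Twist f F)
      (τ : ℝ) (m : ℤ), X.HasOrder τ m → ul U (toDat X τ).X = -(m : ℝ) := by
    intro F _ X τ m hm
    obtain ⟨Λ, h1, h2, h4⟩ := hm
    exact dat_order hodd h3 U hU (toDat X τ) Λ h1 h2 h4
  obtain ⟨M, Θ, hM1, hM2, hΘ, hdeg, hA, hB⟩ := stab hodd h3 n k m N hNb U hU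
    (fun A => A.F true ≤ A.F false ∧ P (A.F false) (A.d false))
  have hBd : ∀ (F : IntermediateField K (AlgebraicClosure K)) [NumberField F] (d : Fin r → 𝓞 F),
      P F d → Bd (K := K) n F d := by
    intro F _ d h
    rcases hP F d h with h1 | h1
    · exact Bd_of_finrank h1 d
    · exact fun j hj => h1 j.1 j.2 (hlt hj)
  have hsep : Algebra.IsSeparable K M := inferInstance
  refine ⟨M, Θ, hM1, IsGalois.mk, hΘ, fun h => hdeg fun A hA => ⟨hA.1, h _ _ hA.2⟩,
    fun F _ X hX τ hcond => ?_, fun F F₀ _ _ hF₀ X Y hX hY hR τ => ?_, ?_⟩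
  · have h1 := hA τ (toDat X τ) (hBd F X.d hX) ⟨le_rfl, hX⟩ (by
      rcases hcond with h | h
      · exact Or.inl h
      · exact Or.inr fun j hj => h j.1 j.2 (hlt hj))
    constructor
    · have h2 := freq_of_lim hU (dat_tendsto hodd h3 U hU (toDat X τ)) (hdiv h1)
      rw [hex] at h2
      exact h2
    · intro m hm
      rw [hord F X τ m hm, hex] at h1
      have h2 : (k : ℝ) * |((m : ℤ) : ℝ) - ((-if τ = 0 then (r : ℤ) else 0 : ℤ) : ℝ)| < 1 := by
        have e1 : ((m : ℤ) : ℝ) - ((-if τ = 0 then (r : ℤ) else 0 : ℤ) : ℝ) =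
            -(-(m : ℝ) - if τ = 0 then (r : ℝ) else 0) := by
          by_cases h : τ = 0
          · simp only [if_pos h]
            push_cast
            ring
          · simp only [if_neg h]
            push_cast
            ring
        rw [e1, abs_neg]
        exact h1
      exact int_eq_of_lt hk h2
  · have hle : F₀ ≤ F := by
      rw [hF₀]
      exact inf_le_left
    have h1 := hB τ (toDat X τ) (toDat Y τ) hF₀ (hBd F X.d hX) (hBd F₀ Y.d hY)
      ⟨hle, hX⟩ (fun j hj => hR j.1 j.2 (hlt hj))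
    constructor
    · have h2 : Tendsto (fun ε => (toDat X τ).X ε - (toDat Y τ).X ε) U
          (𝓝 (ul U (toDat X τ).X - ul U (toDat Y τ).X)) :=
        (dat_tendsto hodd h3 U hU (toDat X τ)).sub (dat_tendsto hodd h3 U hU (toDat Y τ))
      have h4 : |(ul U (toDat X τ).X - ul U (toDat Y τ).X) - 0| < 1 / k := by
        rw [sub_zero]
        exact hdiv h1
      have h5 := freq_of_lim hU h2 h4
      simp only [sub_zero] at h5
      exact h5
    · intro m m' hm hm'
      rw [hord F X τ m hm, hord F₀ Y τ m' hm'] at h1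
      refine int_eq_of_lt hk ?_
      have e1 : (m : ℝ) - m' = -(-(m : ℝ) - -(m' : ℝ)) := by ring
      rw [e1, abs_neg]
      exact h1
  · obtain ⟨l, s, hl, hs⟩ := finite_types (r := r) M
    refine ⟨l, fun a => (s a).G, fun a => (s a).e, hl, fun a => ⟨(s a).le, (s a).nf, (s a).he⟩,
      fun F _ d hd => ?_⟩
    obtain ⟨a, ha, hR⟩ := hs F d hd
    exact ⟨a, ha, fun i j hij => hR (i, j) (hmem hij)⟩

end Pool.Agent.Results.MP_1f4fc7_nt.BoundedDegreeExtensions
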