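import Pool.Agent.W353.TD.Main

/-!
# Tate's conjecture on the pole over radical extensions of prime degree

`X` is a smooth projective variety over a number field `K` and `V = A^m(X) ⊗ ℚ` the space of the classes
of the algebraic cycles of codimension `m` defined over the algebraic closure; for `m = 1` it is
`NS(X) ⊗ ℚ`.  For every number field `F ⊇ K` the rank of the group of the classes of the cycles defined
over `F` is `dim V^{Gal(K̄/F)}`.  Tate's conjecture for `X_F` says that the order at `s = m + 1` of
`L(H^{2m}(X_F), s)` is the negative of this rank; the defect over `F` is the sum of the order and the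
rank.
The definitions are in `Pool.Agent.W353.TD.Defs` and `Pool.Agent.W353.EF.Defs`.
-/

set_option autoImplicit false

namespace Pool.Agent.Results.MP_1f4fc7_nt.TateRadicalExtensions

open NumberField Pool.Agent.W353.TD

/-- **Tate's conjecture over radical extensions.**  Let `X` be a projective variety of dimension `d` over
a number field `K`, `0 ≤ m ≤ d` (`m = 1` for the Néron–Severi group), `N` the `2m`-th Betti number, `V` a
part of `H^{2m}(X)(m)`, for instance `V = A^m(X) ⊗ ℚ`, and `s = N - dim V`.  Let `p` be a prime number with
`[K(ζ_p) : K] > 2 s` (for `K = ℚ`, `p > 2 s + 1`) and `F = K(a^(1/p))`, `a ∈ K`, of degree `p`.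
* (No continuation is assumed here.)  The values of `log |L(m + 1 + ε)| / log(1/ε) - rank` over `F` and
over `K` differ by less than `1` for all small `ε > 0`.
* The defects over `F` and over `K`, if both exist, are equal: if `L(H^{2m}(X), s)` has a pole of the
order predicted by Tate and `L(H^{2m}(X_F), s)` has an order at `m + 1`, then it has a pole of the order
predicted by Tate, too. -/
theorem result (K : Type) [Field K] [NumberField K] (n d m N : ℕ)
    (X : Set (MvPolynomial (Fin n) (𝓞 K))) (V : Type) [AddCommGroup V] [Module ℚ V]
    [FiniteDimensional ℚ V] (ρ : Representation ℚ Gal(AlgebraicClosure K/K) V) (hm : m ≤ d)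
    (hV : IsPart X d m N ρ) : RadicalDefects X d m N ρ := by
  obtain ⟨n₀, h⟩ := all (N - Module.finrank ℚ V)
  exact (h K n d m N X V ρ hm rfl hV).2.2.1

end Pool.Agent.Results.MP_1f4fc7_nt.TateRadicalExtensions
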