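import Pool.Agent.W353.TD.Main

/-!
# Tate's conjecture on the pole over the subfields of a field with symmetric Galois group

`X` is a smooth projective variety over a number field `K` and `V = A^m(X) ⊗ ℚ` the space of the classes
of the algebraic cycles of codimension `m` defined over the algebraic closure; for `m = 1` it is
`NS(X) ⊗ ℚ`.  For every number field `F ⊇ K` the rank of the group of the classes of the cycles defined
over `F` is `dim V^{Gal(K̄/F)}`.  Tate's conjecture for `X_F` says that the order at `s = m + 1` of
`L(H^{2m}(X_F), s)` is the negative of this rank; the defect over `F` is the sum of the order and the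
rank.
The definitions are in `Pool.Agent.W353.TD.Defs` and `Pool.Agent.W353.EF.Defs`.
-/

set_option autoImplicit false

namespace Pool.Agent.Results.MP_1f4fc7_nt.TateSymmetricClosure

open NumberField Pool.Agent.W353.TD

/-- **Tate's conjecture between a number field and the closure of an extension with symmetric group.**
For every `s` there is a number `n₀` with the following property.  Let `X` be a projective variety of
dimension `d` over a number field `K`, `0 ≤ m ≤ d` (`m = 1` for the Néron–Severi group), `N` the `2m`-th
Betti number, `V` a part of `H^{2m}(X)(m)`, for instance `V = A^m(X) ⊗ ℚ`, and `s = N - dim V`.  Let `F/K`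
be an extension of degree at least `n₀` with symmetric Galois group, `L` its closure and
`Q = K(√disc F)`.  Suppose that over all Young subfields of `L` the `L`-function has an order at
`s = m + 1`, that is, there is a defect, `δ ⊥` over `L` and `δ ⊤` over `K`.

Then over every field `M` between `K` and `L` there is a defect, and it is `δ ⊥` if `Q ⊆ M` and `δ ⊤`
otherwise.  In particular, if Tate's conjecture holds over `K` and over `L`, then it holds over every
field between them.  Moreover `|δ ⊤| + |δ ⊥ - δ ⊤| ≤ s`. -/
theorem result (s : ℕ) : ∃ n₀ : ℕ, ∀ (K : Type) [Field K] [NumberField K] (n d m N : ℕ)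
    (X : Set (MvPolynomial (Fin n) (𝓞 K))) (V : Type) [AddCommGroup V] [Module ℚ V]
    [FiniteDimensional ℚ V] (ρ : Representation ℚ Gal(AlgebraicClosure K/K) V), m ≤ d →
    N - Module.finrank ℚ V = s → IsPart X d m N ρ → SymmetricDefects X d m N ρ n₀ := by
  obtain ⟨n₀, h⟩ := all s
  exact ⟨n₀, fun K _ _ n d m N X V _ _ _ ρ hm hs hV => (h K n d m N X V ρ hm hs hV).2.2.2⟩

end Pool.Agent.Results.MP_1f4fc7_nt.TateSymmetricClosure
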